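import Mathlib
import Pool.Agent.V1128.Sol.Defs
import Pool.Agent.V1128.Sol.NotNPF

/-!
A finitely generated soluble group all of whose subgroups `⟨x, x ^ y⟩` are
nilpotent-by-(polycyclic-by-finite), which is not itself nilpotent-by-(polycyclic-by-finite).
-/

set_option autoImplicit false

namespace Pool.Agent.Results.MP_27ef7a_al.SolubleCounterexample

open Pool.Agent.V1128.Sol

theorem result : ∃ (G : Type) (_ : Group G), Group.FG G ∧ Group.IsSolvable G ∧
    (∀ x y : G, IsNPF (Subgroup.closure {x, y⁻¹ * x * y})) ∧ InStar G ∧ ¬ IsNPF G := by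
  refine ⟨Aff.GG, inferInstance, ?_, ?_, Aff.isNPF_closure, Aff.inStar, Aff.not_isNPF⟩
  · rw [Group.fg_iff_subgroup_fg, Subgroup.fg_iff]
    exact ⟨_, rfl, by simp⟩
  · infer_instance

end Pool.Agent.Results.MP_27ef7a_al.SolubleCounterexample
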